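import Mathlib
import Pool.Agent.H62.EC.Own

/-!
# MP_ecfee9_an: the Carleson-Jones exponent is strictly larger than `3/4`

There are `β < 1/4` and `C` such that the coefficients of every univalent function `f = Σ a_n z^n` of the
unit disc with `|f| ≤ 1` satisfy `|a_n| ≤ C n^(-1+β)`, and the coefficients of every univalent
function `z + Σ b_n z^(-n)` of `|z| > 1` satisfy `|b_n| ≤ C n^(-1+β)`.  So `γ > 3/4`: the
Carleson-Jones conjecture is false.

Method: in the half plane coordinate `F`, the superlevel sets of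
`u(z) = y^κ (|F z - w|² + δ²)^(-q/2)` (`log u` is superharmonic) have no holes; the
Euler characteristic of a superlevel set on a grid is at least the number of components.  Integrated
over `w`, this is a linear inequality for the exact moments of `|F'|^(2-q)`; extra components (local
maxima of `u` where `|A - i m0| < 1/2`, `A = y F''/F'`) and an explicit rigidity identity give a strict
gain.
-/

set_option autoImplicit false

open Set Metric

namespace Pool.Agent.Results.MP_ecfee9_an.ExponentAboveThreeQuarters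

theorem result : ∃ β C : ℝ, 0 < β ∧ β < 1 / 4 ∧ 0 < C ∧
    (∀ f : ℂ → ℂ, DifferentiableOn ℂ f (ball (0 : ℂ) 1) → InjOn f (ball (0 : ℂ) 1) → f 0 = 0 →
      (∀ z ∈ ball (0 : ℂ) 1, ‖f z‖ ≤ 1) → ∀ n : ℕ, 1 ≤ n →
        ‖iteratedDeriv n f 0‖ / (n.factorial : ℝ) ≤ C * (n : ℝ) ^ (-1 + β)) ∧
    (∀ h : ℂ → ℂ, DifferentiableOn ℂ h (ball (0 : ℂ) 1) → h 0 = 0 →
      InjOn (fun z : ℂ => z + h z⁻¹) {z : ℂ | 1 < ‖z‖} → ∀ n : ℕ, 1 ≤ n →
        ‖iteratedDeriv n h 0‖ / (n.factorial : ℝ) ≤ C * (n : ℝ) ^ (-1 + β)) := by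
  obtain ⟨β, C, hβ, hβ4, hC, h1, h2⟩ := H62.EC.own_final
  refine ⟨β, C, hβ, hβ4, hC, ?_, ?_⟩
  · intro f hd hi h0 hb n hn
    exact (h1 f hd hi h0 hb).1 n hn
  · intro h hd h0 hi n hn
    exact (h2 h hd h0 hi).1 n hn

end Pool.Agent.Results.MP_ecfee9_an.ExponentAboveThreeQuarters
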